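import Mathlib

/-!
# Simple solutions of the Yang-Baxter equation whose block size does not divide the number of blocks

There is a finite simple involutive non-degenerate solution `(X, r)` of the Yang-Baxter equation on
`X = Y × Z` with `|Y| = 3`, `|Z| = 4` such that the sets `{y} × Z` are blocks of imprimitivity of
`𝒢(X, r)`; there is one with `|Y| = 2`, `|Z| = 4` as well.  So `|Z|` need not divide `|Y|`, and
`|Y|`, `|Z|` can be coprime.

The solution with 12 elements comes from the simple left brace of order 24 (its permutation group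
is `S₄`), the one with 8 elements was found by a SAT solver (its permutation group has order 64).
-/

set_option autoImplicit false

namespace Pool.Agent.Results.MP_9f168b_al.CoprimeBlocks

/-- `r₁₂ = r × id` on `X³` -/
def r12 {X : Type} (r : X × X → X × X) (t : X × X × X) : X × X × X :=
  ((r (t.1, t.2.1)).1, (r (t.1, t.2.1)).2, t.2.2)

/-- `r₂₃ = id × r` on `X³` -/
def r23 {X : Type} (r : X × X → X × X) (t : X × X × X) : X × X × X :=
  (t.1, (r (t.2.1, t.2.2)).1, (r (t.2.1, t.2.2)).2)

/-- `(X, r)` is an involutive non-degenerate solution of the Yang-Baxter equation; with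
`r (x, y) = (σ_x (y), τ_y (x))`, all `σ_x` and all `τ_y` are permutations of `X`. -/
structure IsSolution {X : Type} (r : X × X → X × X) : Prop where
  braid : ∀ t, r12 r (r23 r (r12 r t)) = r23 r (r12 r (r23 r t))
  invol : ∀ p, r (r p) = p
  left : ∀ x, Function.Bijective fun y => (r (x, y)).1
  right : ∀ y, Function.Bijective fun x => (r (x, y)).2

/-- `(X, r)` is simple: `|X| > 1` and every epimorphism from `(X, r)` onto a solution `(X', r')` is
bijective or has `|X'| = 1`. -/
def IsSimple {X : Type} (r : X × X → X × X) : Prop :=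
  1 < Nat.card X ∧ ∀ (X' : Type) (r' : X' × X' → X' × X'), IsSolution r' →
    ∀ f : X → X', Function.Surjective f →
      (∀ x y, (f (r (x, y)).1, f (r (x, y)).2) = r' (f x, f y)) →
      Function.Bijective f ∨ Nat.card X' = 1

/-- the permutation `σ_x` -/
noncomputable def sigma {X : Type} {r : X × X → X × X} (h : IsSolution r) (x : X) :
    Equiv.Perm X :=
  Equiv.ofBijective _ (h.left x)

/-- the permutation group `𝒢(X, r)`, generated by the `σ_x` -/
noncomputable def permGroup {X : Type} {r : X × X → X × X} (h : IsSolution r) :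
    Subgroup (Equiv.Perm X) :=
  Subgroup.closure (Set.range (sigma h))

/-- the sets `X_y = {y} × Z` are blocks of imprimitivity for `𝒢(X, r)`: every element of the group
maps each of these sets onto one of them -/
def FibresAreBlocks {Y Z : Type} {r : (Y × Z) × (Y × Z) → (Y × Z) × (Y × Z)}
    (h : IsSolution r) : Prop :=
  ∀ g ∈ permGroup h, ∀ y : Y, ∃ y' : Y, g '' {p | p.1 = y} = {p | p.1 = y'}

/-! ### checking a solution given by tables -/

/-- entry `(x, y)` of the table `T` of an `n × n` matrix with entries below 16 -/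
def ent (T n x y : ℕ) : ℕ := (T >>> (4 * (n * x + y))) &&& 15

/-- one step on pairs: the code `c < n` stands for `(a, b) ↦ (σ_a c, σ_b c)`, the code `n + c` for
`(a, b) ↦ (σ_c a, σ_c b)` -/
def step (T n c : ℕ) (p : ℕ × ℕ) : ℕ × ℕ :=
  if c < n then (ent T n p.1 c, ent T n p.2 c)
  else (ent T n ((c - n) % n) p.1, ent T n ((c - n) % n) p.2)

def go (T n : ℕ) : List ℕ → ℕ × ℕ → ℕ × ℕ
  | [], p => p
  | c :: l, p => go T n l (step T n c p)

/-- `σ` and `τ`-tables are inverse to each other and map into `{0, ..., n - 1}` -/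
abbrev C1 (n T U : ℕ) : Prop :=
  ∀ x < n, ∀ y < n, ent T n x y < n ∧ ent U n x y < n ∧ ent T n x (ent U n x y) = y ∧
    ent U n x (ent T n x y) = y

/-- the two components of `r` -/
abbrev R1 (n T x y : ℕ) : ℕ := ent T n x y
abbrev R2 (n T U x y : ℕ) : ℕ := ent U n (ent T n x y) x

abbrev C2 (n T U : ℕ) : Prop :=
  ∀ x < n, ∀ y < n, ∀ z < n,
    (R1 n T (R1 n T x y) (R1 n T (R2 n T U x y) z) = R1 n T x (R1 n T y z)) ∧
    (R2 n T U (R1 n T x y) (R1 n T (R2 n T U x y) z) =
      R1 n T (R2 n T U x (R1 n T y z)) (R2 n T U y z)) ∧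
    (R2 n T U (R2 n T U x y) z = R2 n T U (R2 n T U x (R1 n T y z)) (R2 n T U y z))

abbrev C3 (n T U : ℕ) : Prop :=
  ∀ y < n, ∀ x < n, ∀ x' < n, R2 n T U x y = R2 n T U x' y → x = x'

abbrev C4 (n b T : ℕ) : Prop :=
  ∀ x < n, ∀ p < n, ∀ q < n, (ent T n x p / b = ent T n x q / b ↔ p / b = q / b)

abbrev C5 (n T : ℕ) (P : List (List ℕ)) : Prop :=
  ∀ a < n, ∀ b < n, a ≠ b → go T n (P.getD (n * a + b) []) (a, b) = (0, 1)

abbrev C6 (n T : ℕ) (P : List (List ℕ)) : Prop :=
  ∀ t < n, t ≠ 0 → go T n (P.getD t []) (0, 1) = (0, t)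

section generic

variable {a b : ℕ}

/-- number of an element of `Fin a × Fin b` -/
def enc (p : Fin a × Fin b) : ℕ := b * p.1.val + p.2.val

lemma enc_lt (p : Fin a × Fin b) : enc p < a * b := by
  have h1 := p.1.isLt
  have h2 := p.2.isLt
  unfold enc
  calc b * p.1.val + p.2.val < b * p.1.val + b := by omega
    _ = b * (p.1.val + 1) := by ring
    _ ≤ b * a := Nat.mul_le_mul_left _ h1
    _ = a * b := Nat.mul_comm _ _

/-- the element with a given number -/
def dec (hb : 0 < b) (k : ℕ) (hk : k < a * b) : Fin a × Fin b :=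
  (⟨k / b, by rw [Nat.div_lt_iff_lt_mul hb]; exact hk⟩, ⟨k % b, Nat.mod_lt _ hb⟩)

lemma enc_dec (hb : 0 < b) (k : ℕ) (hk : k < a * b) : enc (dec hb k hk : Fin a × Fin b) = k := by
  simp only [enc, dec]
  exact Nat.div_add_mod k b

lemma enc_inj {p q : Fin a × Fin b} (h : enc p = enc q) : p = q := by
  have h1 : p.2.val < b := p.2.isLt
  have h2 : q.2.val < b := q.2.isLt
  have hb : 0 < b := by omega
  unfold enc at h
  have e1 : (b * p.1.val + p.2.val) / b = p.1.val := by
    rw [Nat.mul_add_div hb, Nat.div_eq_of_lt h1, Nat.add_zero]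
  have e2 : (b * q.1.val + q.2.val) / b = q.1.val := by
    rw [Nat.mul_add_div hb, Nat.div_eq_of_lt h2, Nat.add_zero]
  have h3 : p.1.val = q.1.val := by rw [← e1, ← e2, h]
  have h4 : p.2.val = q.2.val := by
    rw [h3] at h; omega
  exact Prod.ext (Fin.ext h3) (Fin.ext h4)

lemma enc_div (p : Fin a × Fin b) : enc p / b = p.1.val := by
  have h1 : p.2.val < b := p.2.isLt
  have hb : 0 < b := by omega
  unfold enc
  rw [Nat.mul_add_div hb, Nat.div_eq_of_lt h1, Nat.add_zero]

lemma dec_enc (hb : 0 < b) (p : Fin a × Fin b) : dec hb (enc p) (enc_lt p) = p :=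
  enc_inj (enc_dec hb _ _)

end generic

theorem of_tables (a b T U : ℕ) (P Q : List (List ℕ)) (ha : 1 < a) (hb : 1 < b)
    (c1 : C1 (a * b) T U) (c2 : C2 (a * b) T U) (c3 : C3 (a * b) T U) (c4 : C4 (a * b) b T)
    (c5 : C5 (a * b) T P) (c6 : C6 (a * b) T Q) :
    ∃ (r : (Fin a × Fin b) × (Fin a × Fin b) → (Fin a × Fin b) × (Fin a × Fin b))
      (h : IsSolution r), IsSimple r ∧ FibresAreBlocks h := by
  have hb0 : 0 < b := by omega
  set n := a * b with hn
  let X := Fin a × Fin b
  have hs : ∀ x y : X, ent T n (enc x) (enc y) < n := fun x y => (c1 _ (enc_lt x) _ (enc_lt y)).1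
  have ht : ∀ x y : X, ent U n (enc x) (enc y) < n := fun x y => (c1 _ (enc_lt x) _ (enc_lt y)).2.1
  let s : X → X → X := fun x y => dec hb0 (ent T n (enc x) (enc y)) (hs x y)
  let t : X → X → X := fun x y => dec hb0 (ent U n (enc x) (enc y)) (ht x y)
  have es : ∀ x y, enc (s x y) = ent T n (enc x) (enc y) := fun x y => enc_dec _ _ _
  have et : ∀ x y, enc (t x y) = ent U n (enc x) (enc y) := fun x y => enc_dec _ _ _
  have st : ∀ x y, s x (t x y) = y := fun x y => enc_inj (by
    rw [es, et]; exact (c1 _ (enc_lt x) _ (enc_lt y)).2.2.1)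
  have ts : ∀ x y, t x (s x y) = y := fun x y => enc_inj (by
    rw [et, es]; exact (c1 _ (enc_lt x) _ (enc_lt y)).2.2.2)
  let r : X × X → X × X := fun p => (s p.1 p.2, t (s p.1 p.2) p.1)
  have hr : IsSolution r := by
    refine ⟨?_, ?_, ?_, ?_⟩
    · rintro ⟨x, y, z⟩
      obtain ⟨h1, h2, h3⟩ := c2 _ (enc_lt x) _ (enc_lt y) _ (enc_lt z)
      simp only [r12, r23, r]
      refine Prod.ext ?_ (Prod.ext ?_ ?_)
      · apply enc_inj
        simp only [es, et]
        exact h1
      · apply enc_inj
        simp only [es, et]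
        exact h2
      · apply enc_inj
        simp only [es, et]
        exact h3
    · rintro ⟨x, y⟩
      simp only [r, st, ts]
    · intro x
      refine Function.bijective_iff_has_inverse.2 ⟨t x, fun y => ts x y, fun y => st x y⟩
    · intro y
      apply Function.Injective.bijective_of_finite
      intro x x' hxx
      apply enc_inj
      refine c3 _ (enc_lt y) _ (enc_lt x) _ (enc_lt x') ?_
      have := congrArg enc hxx
      simpa only [r, es, et] using this
  refine ⟨r, hr, ⟨?_, ?_⟩, ?_⟩
  · rw [Nat.card_prod, Nat.card_eq_fintype_card, Nat.card_eq_fintype_card, Fintype.card_fin,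
      Fintype.card_fin]
    nlinarith
  · intro X' r' hr' f hf hhom
    by_cases hinj : Function.Injective f
    · exact Or.inl ⟨hinj, hf⟩
    right
    -- the kernel of `f` on numbers
    let K : ℕ × ℕ → Prop := fun p => ∀ x y : X, enc x = p.1 → enc y = p.2 → f x = f y
    have hS : ∀ x x' y y' : X, f x = f x' → f y = f y' → f (s x y) = f (s x' y') := by
      intro x x' y y' h1 h2
      have e1 := congrArg Prod.fst (hhom x y)
      have e2 := congrArg Prod.fst (hhom x' y')
      simp only [r] at e1 e2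
      rw [e1, e2, h1, h2]
    have hstep : ∀ (c : ℕ) (p : ℕ × ℕ), c < 2 * n → p.1 < n → p.2 < n → K p →
        K (step T n c p) ∧ (step T n c p).1 < n ∧ (step T n c p).2 < n := by
      intro c p hc hp1 hp2 hK
      have e1 : enc (dec hb0 p.1 hp1 : X) = p.1 := enc_dec _ _ _
      have e2 : enc (dec hb0 p.2 hp2 : X) = p.2 := enc_dec _ _ _
      have hfe : f (dec hb0 p.1 hp1) = f (dec hb0 p.2 hp2) := hK _ _ e1 e2
      unfold step
      split_ifs with hcn
      · have e3 : enc (dec hb0 c hcn : X) = c := enc_dec _ _ _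
        refine ⟨?_, (c1 _ hp1 _ hcn).1, (c1 _ hp2 _ hcn).1⟩
        intro x y hx hy
        have hx' : x = s (dec hb0 p.1 hp1) (dec hb0 c hcn) := enc_inj (by rw [es, e1, e3]; exact hx)
        have hy' : y = s (dec hb0 p.2 hp2) (dec hb0 c hcn) := enc_inj (by rw [es, e2, e3]; exact hy)
        rw [hx', hy']
        exact hS _ _ _ _ hfe rfl
      · have hcm : (c - n) % n < n := Nat.mod_lt _ (by omega)
        have e3 : enc (dec hb0 _ hcm : X) = (c - n) % n := enc_dec _ _ _
        refine ⟨?_, (c1 _ hcm _ hp1).1, (c1 _ hcm _ hp2).1⟩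
        intro x y hx hy
        have hx' : x = s (dec hb0 _ hcm) (dec hb0 p.1 hp1) := enc_inj (by rw [es, e1, e3]; exact hx)
        have hy' : y = s (dec hb0 _ hcm) (dec hb0 p.2 hp2) := enc_inj (by rw [es, e2, e3]; exact hy)
        rw [hx', hy']
        exact hS _ _ _ _ rfl hfe
    have hgo : ∀ (l : List ℕ) (p : ℕ × ℕ), p.1 < n → p.2 < n → K p → K (go T n l p) := by
      intro l
      induction l with
      | nil => intro p _ _ h; exact h
      | cons c l ih =>
        intro p h1 h2 h
        have hn0 : 0 < n := by omega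
        have key : K (step T n c p) ∧ (step T n c p).1 < n ∧ (step T n c p).2 < n := by
          by_cases hc : c < 2 * n
          · exact hstep c p hc h1 h2 h
          · have e : step T n c p = step T n (n + (c - n) % n) p := by
              unfold step
              rw [if_neg (by omega), if_neg (by omega)]
              simp
            rw [e]
            exact hstep _ p (by have := Nat.mod_lt (c - n) hn0; omega) h1 h2 h
        exact ih _ key.2.1 key.2.2 key.1
    -- a pair that is identified
    have h01 : K (0, 1) := by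
      rw [Function.Injective] at hinj
      push Not at hinj
      obtain ⟨x, y, hxy, hne⟩ := hinj
      have hK : K (enc x, enc y) := by
        intro x' y' hx' hy'
        rw [enc_inj hx', enc_inj hy']
        exact hxy
      have := hgo (P.getD (n * enc x + enc y) []) (enc x, enc y) (enc_lt x) (enc_lt y) hK
      rwa [c5 _ (enc_lt x) _ (enc_lt y) (fun h => hne (enc_inj h))] at this
    have hn1 : 1 < n := by rw [hn]; nlinarith
    have hall : ∀ k, k < n → K (0, k) := by
      intro k hk
      by_cases h0 : k = 0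
      · subst h0
        intro x y hx hy
        rw [enc_inj (hx.trans hy.symm)]
      · have := hgo (Q.getD k []) (0, 1) (by show 0 < n; omega) hn1 h01
        rwa [c6 k hk h0] at this
    have hconst : ∀ x y : X, f x = f y := by
      intro x y
      have e0 : enc (dec hb0 0 (by omega : 0 < n) : X) = 0 := enc_dec _ _ _
      have h1 := hall (enc x) (enc_lt x) _ x e0 rfl
      have h2 := hall (enc y) (enc_lt y) _ y e0 rfl
      exact h1.symm.trans h2
    rw [Nat.card_eq_one_iff_unique]
    refine ⟨⟨fun u v => ?_⟩, ?_⟩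
    · obtain ⟨x, rfl⟩ := hf u
      obtain ⟨y, rfl⟩ := hf v
      exact hconst x y
    · exact ⟨f (dec hb0 0 (by omega : 0 < n))⟩
  · intro g hg
    have hai : ∀ (g : Equiv.Perm X) (q : X), g (g⁻¹ q) = q := fun g q => by simp
    have hQ : ∀ p q : X, (g p).1 = (g q).1 ↔ p.1 = q.1 := by
      refine Subgroup.closure_induction (p := fun g _ => ∀ p q : X, (g p).1 = (g q).1 ↔ p.1 = q.1)
        ?_ ?_ ?_ ?_ hg
      · rintro _ ⟨x, rfl⟩ p q
        have e : ∀ y, sigma hr x y = s x y := fun y => rfl
        rw [e, e]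
        have h1 := c4 _ (enc_lt x) _ (enc_lt p) _ (enc_lt q)
        rw [← es, ← es, enc_div, enc_div, enc_div, enc_div] at h1
        rw [Fin.ext_iff, Fin.ext_iff]
        exact h1
      · intro p q; rfl
      · intro g₁ g₂ _ _ h1 h2 p q
        rw [Equiv.Perm.mul_apply, Equiv.Perm.mul_apply, h1, h2]
      · intro g₁ _ h1 p q
        have := h1 (g₁⁻¹ p) (g₁⁻¹ q)
        rw [hai, hai] at this
        exact this.symm
    intro y
    refine ⟨(g (y, ⟨0, hb0⟩)).1, ?_⟩
    ext q
    simp only [Set.mem_image]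
    change (∃ p, p.1 = y ∧ g p = q) ↔ q.1 = (g (y, ⟨0, hb0⟩)).1
    constructor
    · rintro ⟨p, hp, rfl⟩
      exact (hQ _ _).2 hp
    · intro hq
      refine ⟨g⁻¹ q, ?_, hai g q⟩
      have := (hQ (g⁻¹ q) (y, ⟨0, hb0⟩)).1 (by rw [hai]; exact hq)
      exact this

def d8T : ℕ := 31418186286890620147955021912534135570509905014271323776258980712571959538774

def d8U : ℕ := 38176376306502474540657984630522533307036748066322981661387202453217953863524

def d8P : List (List ℕ) :=
  [[], [], [13, 11], [2, 6], [7, 13], [13, 5], [7, 13], [7, 5], [0, 5], [], [0, 5], [9], [0, 5], [9,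
   7, 5], [6, 6], [7, 0, 5], [11], [6, 5], [], [13], [5], [6, 5], [5], [2, 6], [4, 6], [13, 9], [9,
   9], [], [11, 5], [3, 6, 5], [3, 5], [15, 0, 5], [6], [4, 5], [4, 13], [14, 5], [], [6, 7, 13],
   [8], [12, 13], [0, 5], [10, 13, 5], [0, 5], [10, 7, 5], [0, 5], [], [6, 6], [10], [6], [4, 5], [4,
   13], [4, 5], [10, 13], [12], [], [4, 5], [0, 5], [8, 6, 5], [8, 5], [0, 6, 5], [10, 9], [8, 13],
   [2, 7, 13], []]

def d8Q : List (List ℕ) :=
  [[], [], [0, 6], [9, 5], [8, 6], [0, 3, 6], [4], [0, 12]]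

def d12T : ℕ := 33819500451971998926963125489149360818296549917163878782086764479355672861677982787147786148597021901523522335915896051103253388397412616168483056213456668792085278456244037

def d12U : ℕ := 1099246236387513254335392708446949289856205104966901303234797208457321807405548036483110897810090998736750345921387095429680203926725809064448800812708211464791932465661287

def d12P : List (List ℕ) :=
  [[], [], [1, 17], [7], [1, 8], [7, 7], [7, 1, 17], [20, 8], [1, 17], [7, 7], [7, 1, 17], [22, 4],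
   [12, 17], [], [11], [1, 16], [11, 7], [1, 16], [20, 4], [11, 1, 17], [11, 7], [1, 8], [22, 8],
   [11, 1, 17], [0, 17], [10], [], [16, 17], [10, 1, 17], [16, 8], [0, 8], [10, 7], [10, 1, 17], [18,
   4], [0, 17], [10, 7], [6], [0, 16], [18, 17], [], [16, 4], [6, 1, 17], [6, 7], [0, 16], [18, 8],
   [6, 1, 17], [6, 7], [0, 8], [2, 8], [8, 7], [8, 1, 17], [19, 4], [], [17], [2, 17], [8], [2, 2,
   17], [17, 7, 7], [2, 8], [8], [4, 7], [0, 16], [19, 8], [4, 1, 17], [18], [], [4], [0, 16], [22,
   7, 7], [22, 1, 17], [4], [0, 8], [5, 1, 17], [23, 4], [3, 8], [5, 7], [3, 17], [5], [], [15], [3,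
   8], [5], [3, 2, 17], [15, 7, 7], [23, 8], [9, 1, 17], [9, 7], [1, 16], [9], [1, 16], [12], [],
   [9], [1, 8], [12, 7, 7], [12, 1, 17], [0, 17], [8, 7], [8, 1, 17], [17, 8], [20, 1, 17], [20, 7,
   7], [0, 8], [8], [], [16], [0, 17], [8], [4, 7], [2, 8], [17, 4], [4, 1, 17], [19, 7, 7], [10, 2,
   17], [4], [2, 8], [19], [], [4], [2, 16], [5, 1, 17], [21, 8], [1, 17], [5, 7], [1, 8], [5], [14,
   1, 17], [14, 7, 7], [1, 17], [5], [], [14], [21, 4], [9, 1, 17], [9, 7], [3, 8], [9], [3, 8], [13,
   7, 7], [7, 2, 17], [9], [3, 16], [13], []]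

def d12Q : List (List ℕ) :=
  [[], [], [0, 0, 16], [5, 0, 17], [7], [0, 9, 4], [1, 21], [4, 6], [0, 22], [5, 10], [0, 18], [9,
   5]]

/-- There are simple solutions of the Yang-Baxter equation on `Y × Z`, such that the sets `{y} × Z`
are blocks of imprimitivity for the permutation group, with `|Y| = 3`, `|Z| = 4` and with
`|Y| = 2`, `|Z| = 4`.  In both cases `|Z|` does not divide `|Y|`. -/
theorem result :
    (∃ (Y Z : Type) (_ : Fintype Y) (_ : Fintype Z)
      (r : (Y × Z) × (Y × Z) → (Y × Z) × (Y × Z)) (h : IsSolution r),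
      Fintype.card Y = 3 ∧ Fintype.card Z = 4 ∧ ¬ Fintype.card Z ∣ Fintype.card Y ∧
        Nat.Coprime (Fintype.card Y) (Fintype.card Z) ∧ IsSimple r ∧ FibresAreBlocks h) ∧
    (∃ (Y Z : Type) (_ : Fintype Y) (_ : Fintype Z)
      (r : (Y × Z) × (Y × Z) → (Y × Z) × (Y × Z)) (h : IsSolution r),
      Fintype.card Y = 2 ∧ Fintype.card Z = 4 ∧ ¬ Fintype.card Z ∣ Fintype.card Y ∧
        IsSimple r ∧ FibresAreBlocks h) := by
  constructor
  · obtain ⟨r, h, h1, h2⟩ := of_tables 3 4 d12T d12U d12P d12Q (by norm_num) (by norm_num)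
      (by decide +kernel) (by decide +kernel) (by decide +kernel) (by decide +kernel)
      (by decide +kernel) (by decide +kernel)
    exact ⟨Fin 3, Fin 4, inferInstance, inferInstance, r, h, by simp, by simp, by simp, by
      simp [Nat.Coprime], h1, h2⟩
  · obtain ⟨r, h, h1, h2⟩ := of_tables 2 4 d8T d8U d8P d8Q (by norm_num) (by norm_num)
      (by decide +kernel) (by decide +kernel) (by decide +kernel) (by decide +kernel)
      (by decide +kernel) (by decide +kernel)
    exact ⟨Fin 2, Fin 4, inferInstance, inferInstance, r, h, by simp, by simp, by simp, h1, h2⟩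

end Pool.Agent.Results.MP_9f168b_al.CoprimeBlocks
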